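import Mathlib

namespace Run7.h397

/-- A point of the plane. -/
abbrev Pt := ℝ × ℝ

/-- Twice the signed area of the triangle `a b c`. -/
def orient (a b c : Pt) : ℝ := (b.1 - a.1) * (c.2 - a.2) - (c.1 - a.1) * (b.2 - a.2)

theorem orient_cyc (a b c : Pt) : orient b c a = orient a b c := by unfold orient; ring
theorem orient_cyc' (a b c : Pt) : orient c a b = orient a b c := by unfold orient; ring
theorem orient_swap (a b c : Pt) : orient b a c = - orient a b c := by unfold orient; ring
theorem orient_swap' (a b c : Pt) : orient a c b = - orient a b c := by unfold orient; ring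
theorem orient_swap'' (a b c : Pt) : orient c b a = - orient a b c := by unfold orient; ring
@[simp] theorem orient_self1 (a b : Pt) : orient a a b = 0 := by unfold orient; ring
@[simp] theorem orient_self2 (a b : Pt) : orient a b a = 0 := by unfold orient; ring
@[simp] theorem orient_self3 (a b : Pt) : orient b a a = 0 := by unfold orient; ring

theorem orient_add (a x y z : Pt) : orient x y z = orient a x y + orient a y z + orient a z x := by
  unfold orient; ring

/-- The segments `a b` and `c d` cross properly. -/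
def Cr (a b c d : Pt) : Prop :=
  orient a b c * orient a b d < 0 ∧ orient c d a * orient c d b < 0

theorem Cr.symm {a b c d : Pt} (h : Cr a b c d) : Cr c d a b := ⟨h.2, h.1⟩

theorem cr_comm (a b c d : Pt) : Cr a b c d ↔ Cr c d a b := ⟨Cr.symm, Cr.symm⟩

theorem cr_swap1 (a b c d : Pt) : Cr a b c d ↔ Cr b a c d := by
  unfold Cr
  rw [orient_swap a b c, orient_swap a b d, mul_comm (orient c d b)]
  constructor
  · rintro ⟨h1, h2⟩; exact ⟨by linarith [neg_mul_neg (orient a b c) (orient a b d)], h2⟩
  · rintro ⟨h1, h2⟩; exact ⟨by linarith [neg_mul_neg (orient a b c) (orient a b d)], h2⟩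

theorem cr_swap2 (a b c d : Pt) : Cr a b c d ↔ Cr a b d c := by
  rw [cr_comm, cr_swap1, cr_comm]

theorem not_cr_left (a b c : Pt) : ¬ Cr a b a c := by
  rintro ⟨h, -⟩; simp at h

theorem not_cr_left' (a b c : Pt) : ¬ Cr a b c a := by
  rintro ⟨h, -⟩; simp at h

theorem not_cr_right (a b c : Pt) : ¬ Cr a b b c := by
  rintro ⟨h, -⟩; simp at h

theorem not_cr_right' (a b c : Pt) : ¬ Cr a b c b := by
  rintro ⟨h, -⟩; simp at h

/-- `p` is strictly inside the triangle `x y z`. -/
def InTri (x y z p : Pt) : Prop :=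
  0 < orient x y p * orient x y z ∧ 0 < orient y z p * orient x y z ∧
    0 < orient z x p * orient x y z

theorem inTri_cyc {x y z p : Pt} (h : InTri x y z p) : InTri y z x p := by
  unfold InTri at *
  rw [orient_cyc x y z]
  exact ⟨h.2.1, h.2.2, h.1⟩

theorem inTri_cyc_iff {x y z p : Pt} : InTri x y z p ↔ InTri y z x p :=
  ⟨inTri_cyc, fun h => inTri_cyc (inTri_cyc h)⟩

theorem inTri_swap {x y z p : Pt} (h : InTri x y z p) : InTri y x z p := by
  unfold InTri at *
  rw [orient_swap x y z, orient_swap x y p, orient_swap z x p, orient_swap y z p]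
  refine ⟨?_, ?_, ?_⟩
  · have := h.1; linarith [neg_mul_neg (orient x y p) (orient x y z)]
  · have := h.2.2; linarith [neg_mul_neg (orient z x p) (orient x y z)]
  · have := h.2.1; linarith [neg_mul_neg (orient y z p) (orient x y z)]

theorem inTri_swap_iff {x y z p : Pt} : InTri x y z p ↔ InTri y x z p :=
  ⟨inTri_swap, inTri_swap⟩

theorem inTri_pos {x y z p : Pt} (hD : 0 < orient x y z) :
    InTri x y z p ↔ 0 < orient x y p ∧ 0 < orient y z p ∧ 0 < orient z x p := by
  unfold InTri
  constructor
  · rintro ⟨h1, h2, h3⟩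
    exact ⟨(pos_iff_pos_of_mul_pos h1).2 hD, (pos_iff_pos_of_mul_pos h2).2 hD,
      (pos_iff_pos_of_mul_pos h3).2 hD⟩
  · rintro ⟨h1, h2, h3⟩
    exact ⟨mul_pos h1 hD, mul_pos h2 hD, mul_pos h3 hD⟩

/-- The three side functionals add up to the area. -/
theorem orient_sum (x y z p : Pt) :
    orient x y p + orient y z p + orient z x p = orient x y z := by
  unfold orient; ring

theorem bary_x (x y z u v : Pt) :
    orient x y z * orient u v x =
      orient z x u * orient x y v - orient x y u * orient z x v := by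
  unfold orient; ring

theorem bary_y (x y z u v : Pt) :
    orient x y z * orient u v y =
      orient x y u * orient y z v - orient y z u * orient x y v := by
  unfold orient; ring

theorem bary_z (x y z u v : Pt) :
    orient x y z * orient u v z =
      orient y z u * orient z x v - orient z x u * orient y z v := by
  unfold orient; ring

theorem tri_aux (u1 u2 u3 v1 v2 v3 D : ℝ) (hD : 0 < D) (hu : u1 + u2 + u3 = D)
    (hv : v1 + v2 + v3 = D) (hu1 : u1 < 0) (hv1 : 0 < v1)
    (hA : 0 < u3 * v1 - u1 * v3) (hB : u1 * v2 - u2 * v1 < 0)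
    (hC : 0 < u2 * v3 - u3 * v2) (hout : ¬ (0 < v1 ∧ 0 < v2 ∧ 0 < v3))
    (hv2 : v2 ≠ 0) (hv3 : v3 ≠ 0) : v2 < 0 ∧ 0 < u2 := by
  have h2 : v2 < 0 := by
    by_contra hc
    have hv2' : 0 < v2 := lt_of_le_of_ne (not_lt.1 hc) (Ne.symm hv2)
    have hv3' : v3 < 0 := by
      by_contra hc3
      exact hout ⟨hv1, hv2', lt_of_le_of_ne (not_lt.1 hc3) (Ne.symm hv3)⟩
    -- u3 > 0
    have hu1v3 : 0 < u1 * v3 := mul_pos_of_neg_of_neg hu1 hv3'
    have hu3 : 0 < u3 := by
      by_contra h; push Not at h
      nlinarith [mul_nonneg (neg_nonneg.2 h) hv1.le]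
    have hu3v2 : 0 < u3 * v2 := mul_pos hu3 hv2'
    have hu2 : u2 < 0 := by
      by_contra h; push Not at h
      nlinarith [mul_nonneg h (neg_pos.2 hv3').le]
    nlinarith [mul_pos (neg_pos.2 hu2) hD, mul_pos hD hv2']
  refine ⟨h2, ?_⟩
  by_contra h; push Not at h
  have : 0 < u1 * v2 := mul_pos_of_neg_of_neg hu1 h2
  nlinarith [mul_nonneg (neg_nonneg.2 h) hv1.le]


theorem tri_exit_core {x y z u v : Pt} (hD : 0 < orient x y z) (hu1 : orient x y u < 0)
    (hv1 : 0 < orient x y v) (hcr : orient u v x * orient u v y < 0)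
    (hu : ¬ InTri x y z u) (hv : ¬ InTri x y z v)
    (n2u : orient y z u ≠ 0) (n3u : orient z x u ≠ 0)
    (n2v : orient y z v ≠ 0) (n3v : orient z x v ≠ 0) (nz : orient u v z ≠ 0) :
    (Cr y z u v ∧ ¬ Cr z x u v) ∨ (Cr z x u v ∧ ¬ Cr y z u v) := by
  have hid : orient u v x - orient u v y = orient x y v - orient x y u := by
    unfold orient; ring
  have hAB : orient u v y < orient u v x := by linarith
  have hA : 0 < orient u v x := by
    by_contra h; push Not at h
    have : 0 ≤ orient u v x * orient u v y := mul_nonneg_of_nonpos_of_nonpos h (by linarith)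
    linarith
  have hB : orient u v y < 0 := by
    by_contra h; push Not at h
    have : 0 ≤ orient u v x * orient u v y := mul_nonneg hA.le h
    linarith
  have bx := bary_x x y z u v
  have by' := bary_y x y z u v
  have bz := bary_z x y z u v
  have su := orient_sum x y z u
  have sv := orient_sum x y z v
  rw [inTri_pos hD] at hv hu
  rcases lt_or_gt_of_ne nz with hC | hC
  · right
    have := tri_aux (orient x y u) (orient z x u) (orient y z u)
      (orient x y v) (orient z x v) (orient y z v) (orient x y z) hD (by linarith) (by linarith)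
      hu1 hv1 (by nlinarith [mul_pos hD (neg_pos.2 hB)]) (by nlinarith [mul_pos hD hA])
      (by nlinarith [mul_pos hD (neg_pos.2 hC)]) (fun h => hv ⟨h.1, h.2.2, h.2.1⟩) n3v n2v
    refine ⟨⟨mul_neg_of_pos_of_neg this.2 this.1, mul_neg_of_neg_of_pos hC hA⟩, ?_⟩
    rintro ⟨-, h2⟩
    have := mul_pos_of_neg_of_neg hB hC
    linarith
  · left
    have := tri_aux (orient x y u) (orient y z u) (orient z x u)
      (orient x y v) (orient y z v) (orient z x v) (orient x y z) hD (by linarith) (by linarith)
      hu1 hv1 (by nlinarith [mul_pos hD hA]) (by nlinarith [mul_pos hD (neg_pos.2 hB)])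
      (by nlinarith [mul_pos hD hC]) (fun h => hv ⟨h.1, h.2.1, h.2.2⟩) n2v n3v
    refine ⟨⟨mul_neg_of_pos_of_neg this.2 this.1, mul_neg_of_neg_of_pos hB hC⟩, ?_⟩
    rintro ⟨-, h2⟩
    have := mul_pos hC hA
    linarith

/-- A segment that crosses one side of a triangle and has no endpoint strictly inside
leaves it through exactly one of the other two sides. -/
theorem tri_exit {x y z u v : Pt} (hD : orient x y z ≠ 0) (h : Cr x y u v)
    (hu : ¬ InTri x y z u) (hv : ¬ InTri x y z v)
    (n2u : orient y z u ≠ 0) (n3u : orient z x u ≠ 0)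
    (n2v : orient y z v ≠ 0) (n3v : orient z x v ≠ 0) (nz : orient u v z ≠ 0) :
    (Cr y z u v ∧ ¬ Cr z x u v) ∨ (Cr z x u v ∧ ¬ Cr y z u v) := by
  -- first handle positive orientation
  have key : ∀ {x y z u v : Pt}, 0 < orient x y z → Cr x y u v →
      ¬ InTri x y z u → ¬ InTri x y z v → orient y z u ≠ 0 → orient z x u ≠ 0 →
      orient y z v ≠ 0 → orient z x v ≠ 0 → orient u v z ≠ 0 →
      ((Cr y z u v ∧ ¬ Cr z x u v) ∨ (Cr z x u v ∧ ¬ Cr y z u v)) := by
    intro x y z u v hD h hu hv n2u n3u n2v n3v nz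
    rcases lt_trichotomy (orient x y u) 0 with h1 | h1 | h1
    · have hv1 : 0 < orient x y v := by
        by_contra hc; push Not at hc
        have := mul_nonneg_of_nonpos_of_nonpos h1.le hc
        linarith [h.1]
      exact tri_exit_core hD h1 hv1 h.2 hu hv n2u n3u n2v n3v nz
    · have := h.1; rw [h1, zero_mul] at this; exact absurd this (lt_irrefl _)
    · have hv1 : orient x y v < 0 := by
        by_contra hc; push Not at hc
        have := mul_nonneg h1.le hc
        linarith [h.1]
      have h2 : orient v u x * orient v u y < 0 := by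
        rw [orient_swap u v x, orient_swap u v y, neg_mul_neg]; exact h.2
      have nz' : orient v u z ≠ 0 := by rw [orient_swap u v z]; exact neg_ne_zero.2 nz
      have := tri_exit_core hD hv1 h1 h2 hv hu n2v n3v n2u n3u nz'
      rw [cr_swap2 y z v u, cr_swap2 z x v u] at this
      exact this
  rcases lt_or_gt_of_ne hD with hD' | hD'
  · have hD2 : 0 < orient y x z := by rw [orient_swap x y z]; linarith
    have := key hD2 ((cr_swap1 x y u v).1 h) (fun h' => hu (inTri_swap_iff.2 h'))
      (fun h' => hv (inTri_swap_iff.2 h')) (by rw [orient_swap]; exact neg_ne_zero.2 n3u)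
      (by rw [orient_swap]; exact neg_ne_zero.2 n2u)
      (by rw [orient_swap]; exact neg_ne_zero.2 n3v)
      (by rw [orient_swap]; exact neg_ne_zero.2 n2v) nz
    rw [cr_swap1 x z u v, cr_swap1 z y u v] at this
    exact this.symm
  · exact key hD' h hu hv n2u n3u n2v n3v nz

end Run7.h397
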